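import Pool.Agent.H34.TAM.Stmts2
import Pool.Agent.H83.TAM.EXJ

/-!
Row EXC of board aut (MP_286349_an): the expectation of cyclic gradients onto a free block.
-/

set_option autoImplicit false

noncomputable section

namespace Pool.AUT

open Pool.CGR Pool.CGS Pool.TAM
open scoped TensorProduct

namespace H19

open Pool.CGR.FSB (e e_word)
open Pool.TAM.EXJ (Bx BB e_mem EL AC EL_prod EL_mem EL_chain tf tf_add tf_smul e_tf lt_add lt_smul
  exists_tf pe_mem)

section

variable {m : ℕ} (c : Fin m → Fin m) {A : Type} [Ring A] [Algebra ℂ A] (τ : A →ₗ[ℂ] ℂ)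
  (x : Fin m → A)

/-- the map to the upper triangular matrices -/
def Mx (i : Fin m) (a : A) : FreeAlgebra ℂ (Fin m) →ₐ[ℂ] Matrix (Fin 2) (Fin 2) A :=
  FreeAlgebra.lift ℂ fun j => !![x j, if j = i then a else 0; 0, x j]

/-- the derivative in the direction `a` at the letter `i` -/
def dx (i : Fin m) (a : A) (p : FreeAlgebra ℂ (Fin m)) : A := Mx x i a p 0 1

theorem Mx_entries (i : Fin m) (a : A) (p : FreeAlgebra ℂ (Fin m)) :
    Mx x i a p 0 0 = e x p ∧ Mx x i a p 1 1 = e x p ∧ Mx x i a p 1 0 = 0 := by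
  induction p using FreeAlgebra.induction with
  | grade0 r =>
    rw [AlgHom.commutes, AlgHom.commutes]
    simp [Matrix.algebraMap_matrix_apply]
  | grade1 j =>
    simp [Mx]
  | mul p q hp hq =>
    rw [map_mul, map_mul]
    simp only [Matrix.mul_apply, Fin.sum_univ_two, hp.1, hp.2.1, hp.2.2, hq.1, hq.2.1, hq.2.2,
      mul_zero, zero_mul, add_zero, zero_add, and_self]
  | add p q hp hq =>
    rw [map_add, map_add]
    simp only [Matrix.add_apply, hp.1, hp.2.1, hp.2.2, hq.1, hq.2.1, hq.2.2, add_zero, and_self]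

theorem dx_mul (i : Fin m) (a : A) (p q : FreeAlgebra ℂ (Fin m)) :
    dx x i a (p * q) = e x p * dx x i a q + dx x i a p * e x q := by
  unfold dx
  rw [map_mul, Matrix.mul_apply, Fin.sum_univ_two, (Mx_entries x i a p).1,
    (Mx_entries x i a q).2.1]

theorem dx_ι (i : Fin m) (a : A) (j : Fin m) :
    dx x i a (FreeAlgebra.ι ℂ j) = if j = i then a else 0 := by
  simp [dx, Mx]

theorem dx_algebraMap (i : Fin m) (a : A) (r : ℂ) :
    dx x i a (algebraMap ℂ (FreeAlgebra ℂ (Fin m)) r) = 0 := by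
  unfold dx
  rw [AlgHom.commutes]
  simp [Matrix.algebraMap_matrix_apply]

theorem dx_one (i : Fin m) (a : A) : dx x i a 1 = 0 := by
  have h := dx_algebraMap x i a 1
  rwa [map_one] at h

theorem dx_add (i : Fin m) (a : A) (p q : FreeAlgebra ℂ (Fin m)) :
    dx x i a (p + q) = dx x i a p + dx x i a q := by
  unfold dx
  rw [map_add]
  rfl

theorem dx_smul (i : Fin m) (a : A) (r : ℂ) (p : FreeAlgebra ℂ (Fin m)) :
    dx x i a (r • p) = r • dx x i a p := by
  unfold dx
  rw [map_smul]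
  rfl

theorem dx_zero (i : Fin m) (a : A) : dx x i a 0 = 0 := by
  unfold dx
  rw [map_zero]
  rfl

theorem dx_word (i : Fin m) (a : A) (w : List (Fin m)) :
    dx x i a ((w.map (FreeAlgebra.ι ℂ)).prod) = dv x i a w := by
  induction w with
  | nil =>
    rw [List.map_nil, List.prod_nil, dx_one, (dvc_thm (Fin m) A x i a).1]
  | cons j w ih =>
    rw [List.map_cons, List.prod_cons, dx_mul, ih, (dvc_thm (Fin m) A x i a).2.1, dx_ι, e_word,
      show e x (FreeAlgebra.ι ℂ j) = x j from FreeAlgebra.lift_ι_apply _ _, add_comm]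
    congr 1
    split_ifs
    · rfl
    · rw [zero_mul]

theorem dx_sum {K : Type} (i : Fin m) (a : A) (s : Finset K) (f : K → FreeAlgebra ℂ (Fin m)) :
    dx x i a (∑ k ∈ s, f k) = ∑ k ∈ s, dx x i a (f k) := by
  classical
  induction s using Finset.induction_on with
  | empty => simp [dx_zero]
  | insert k s hk ih => rw [Finset.sum_insert hk, Finset.sum_insert hk, dx_add, ih]

theorem tau_cp (hτ : ∀ a b, τ (a * b) = τ (b * a)) (i : Fin m) (a : A)
    (H : List (Fin m) →₀ ℂ) : τ (cp x i H * a) = τ (dx x i a (tf H)) := by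
  unfold cp tf
  rw [Finsupp.sum, Finsupp.sum, dx_sum, Finset.sum_mul, map_sum, map_sum]
  apply Finset.sum_congr rfl
  intro w _
  rw [dx_smul, smul_mul_assoc, map_smul, map_smul, dx_word, cgt_thm (Fin m) A τ hτ x i a w]

theorem dx_mem (i o : Fin m) (a : A) (ha : a ∈ Bx c x o)
    {p : FreeAlgebra ℂ (Fin m)} (hp : p ∈ BB c o) : dx x i a p ∈ Bx c x o := by
  induction hp using Algebra.adjoin_induction with
  | mem y hy =>
    obtain ⟨y, hy, rfl⟩ := hy
    rw [dx_ι]
    split_ifs
    · exact ha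
    · exact zero_mem _
  | algebraMap r =>
    rw [dx_algebraMap]
    exact zero_mem _
  | add p q _ _ hp hq =>
    rw [dx_add]
    exact add_mem hp hq
  | mul p q hp' hq' hp hq =>
    rw [dx_mul]
    exact add_mem (mul_mem (e_mem c x o hp') hq) (mul_mem hp (e_mem c x o hq'))

theorem dx_other (i o : Fin m) (ho : o ≠ c i) (a : A)
    {p : FreeAlgebra ℂ (Fin m)} (hp : p ∈ BB c o) : dx x i a p = 0 := by
  induction hp using Algebra.adjoin_induction with
  | mem y hy =>
    obtain ⟨y, hy, rfl⟩ := hy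
    have hy' : c y = o := hy
    rw [dx_ι, if_neg]
    rintro rfl
    exact ho hy'.symm
  | algebraMap r => exact dx_algebraMap _ _ _ r
  | add p q _ _ hp hq => rw [dx_add, hp, hq, add_zero]
  | mul p q _ _ hp hq => rw [dx_mul, hp, hq, mul_zero, zero_mul, add_zero]

/-- a factor of the block `o` at the place of a factor of the block `o` -/
theorem pull (h1 : τ 1 = 1) (hF : FreeAlg τ (Bx c x))
    (l1 l2 : List (Fin m × FreeAlgebra ℂ (Fin m))) (b : Fin m × FreeAlgebra ℂ (Fin m))
    (hl : AC c τ x (l1 ++ b :: l2)) (u : A) (hu : u ∈ Bx c x b.1) :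
    τ (e x (l1.map Prod.snd).prod * (u * e x (l2.map Prod.snd).prod)) =
      τ u * τ (e x (l1.map Prod.snd).prod * e x (l2.map Prod.snd).prod) := by
  have hch := EL_chain c τ x hl
  have hme := EL_mem c τ x hl
  have hs : EL x (l1 ++ b :: l2) = EL x l1 ++ (b.1, e x b.2) :: EL x l2 := by
    simp [EL]
  rw [hs] at hch hme
  have h := hF (EL x l1 ++ (b.1, u - τ u • (1 : A)) :: EL x l2) (by simp)
    (by
      rw [← List.isChain_map (R := fun a b : Fin m => a ≠ b) Prod.fst] at hch ⊢
      simpa using hch)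
    (by
      intro a ha
      rcases List.mem_append.1 ha with ha | ha
      · exact hme a (List.mem_append_left _ ha)
      · rcases List.mem_cons.1 ha with rfl | ha
        · refine ⟨sub_mem hu (Subalgebra.smul_mem _ (one_mem _) _), ?_⟩
          simp [h1]
        · exact hme a (List.mem_append_right _ (List.mem_cons_of_mem _ ha)))
  rw [List.map_append, List.prod_append, List.map_cons, List.prod_cons, EL_prod, EL_prod, sub_mul,
    smul_mul_assoc, one_mul, mul_sub, mul_smul_comm, map_sub, map_smul, smul_eq_mul,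
    sub_eq_zero] at h
  exact h

/-- the conclusion for a functional of the directions -/
def Goo (o : Fin m) (f : Fin m → A → ℂ) : Prop :=
  ∃ P' : List (Fin m) →₀ ℂ, Lt (c ⁻¹' {o}) P' ∧
    ∀ i : Fin m, c i = o → ∀ a ∈ Bx c x o, f i a = τ (dx x i a (tf P'))

theorem goo_zero (o : Fin m) (f : Fin m → A → ℂ)
    (hf : ∀ i : Fin m, c i = o → ∀ a ∈ Bx c x o, f i a = 0) : Goo c τ x o f := by
  refine ⟨0, ?_, ?_⟩
  · intro v hv
    simp at hv
  · intro i hi a ha
    rw [hf i hi a ha, show tf (0 : List (Fin m) →₀ ℂ) = 0 by simp [tf], dx_zero, map_zero]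

theorem goo_list (h1 : τ 1 = 1) (hF : FreeAlg τ (Bx c x)) (o : Fin m)
    (l2 : List (Fin m × FreeAlgebra ℂ (Fin m))) :
    ∀ l1 : List (Fin m × FreeAlgebra ℂ (Fin m)), AC c τ x (l1 ++ l2) →
      Goo c τ x o fun i a =>
        τ (e x (l1.map Prod.snd).prod * dx x i a (l2.map Prod.snd).prod) := by
  induction l2 with
  | nil =>
    intro l1 _
    apply goo_zero
    intro i _ a _
    rw [List.map_nil, List.prod_nil, dx_one, mul_zero, map_zero]
  | cons b l2 ih =>
    intro l1 hl
    obtain ⟨P1, hP1, hP1'⟩ := ih (l1 ++ [b]) (by simpa using hl)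
    have h2 : Goo c τ x o fun i a =>
        τ (e x (l1.map Prod.snd).prod * (dx x i a b.2 * e x (l2.map Prod.snd).prod)) := by
      by_cases hb : b.1 = o
      · subst hb
        obtain ⟨P, hP, hP'⟩ := exists_tf c b.1 (hl.2 b (by simp)).1
        refine ⟨τ (e x (l1.map Prod.snd).prod * e x (l2.map Prod.snd).prod) • P,
          lt_smul _ hP, ?_⟩
        intro i _ a ha
        beta_reduce
        rw [tf_smul, dx_smul, map_smul, hP', smul_eq_mul,
          pull c τ x h1 hF l1 l2 b hl _ (dx_mem c x i b.1 a ha (hl.2 b (by simp)).1), mul_comm]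
      · apply goo_zero
        intro i hi a _
        rw [dx_other c x i b.1 (by rw [hi]; exact hb) a (hl.2 b (by simp)).1, zero_mul, mul_zero,
          map_zero]
    obtain ⟨P2, hP2, hP2'⟩ := h2
    refine ⟨P1 + P2, lt_add hP1 hP2, ?_⟩
    intro i hi a ha
    have e1 := hP1' i hi a ha
    have e2 := hP2' i hi a ha
    beta_reduce at e1 e2 ⊢
    rw [tf_add, dx_add, map_add, ← e1, ← e2, List.map_cons,
      List.prod_cons, dx_mul, mul_add, map_add]
    rw [List.map_append, List.prod_append, map_mul (e x), List.map_singleton,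
      List.prod_singleton, mul_assoc]

theorem goo (h1 : τ 1 = 1) (hF : FreeAlg τ (Bx c x)) (o : Fin m)
    (q : FreeAlgebra ℂ (Fin m)) : Goo c τ x o fun i a => τ (dx x i a q) := by
  have hq := fsa_thm (Fin m) (Fin m) c (τ ∘ₗ (e x).toLinearMap) (by simp [h1]) q
  refine Submodule.span_induction (p := fun q _ => Goo c τ x o fun i a => τ (dx x i a q))
    ?_ ?_ ?_ ?_ hq
  · rintro q ⟨l, hc, hl, rfl⟩
    have hAC : AC c τ x ([] ++ l) := ⟨hc, fun a ha => hl a ha⟩
    have h := goo_list c τ x h1 hF o l [] hAC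
    simpa using h
  · apply goo_zero
    intro i _ a _
    rw [dx_zero, map_zero]
  · rintro p q _ _ ⟨P, hP, hP1⟩ ⟨Q, hQ, hQ1⟩
    refine ⟨P + Q, lt_add hP hQ, ?_⟩
    intro i hi a ha
    have e1 := hP1 i hi a ha
    have e2 := hQ1 i hi a ha
    beta_reduce at e1 e2 ⊢
    rw [tf_add, dx_add, dx_add, map_add, map_add, e1, e2]
  · rintro r p _ ⟨P, hP, hP1⟩
    refine ⟨r • P, lt_smul r hP, ?_⟩
    intro i hi a ha
    have e1 := hP1 i hi a ha
    beta_reduce at e1 ⊢
    rw [tf_smul, dx_smul, dx_smul, map_smul, map_smul, e1]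

end

end H19

open H19 in
theorem exc_thm : EXCStmt := by
  intro m A _ τ hτ x c hB o H
  have hF : FreeAlg τ (Pool.TAM.EXJ.Bx c x) := hB
  obtain ⟨H', hH', h⟩ := goo c τ x hτ.one hF o (Pool.TAM.EXJ.tf H)
  refine ⟨H', hH', ?_⟩
  intro i hi Q hQ
  rw [tau_cp τ x hτ.comm, tau_cp τ x hτ.comm]
  exact h i hi _ (Pool.TAM.EXJ.pe_mem c x o Q hQ)

end Pool.AUT
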